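import Pool.Agent.Helper62.DSH.StB

/-! Project DSH (MP_087a81_gt), module FRJ. -/

set_option autoImplicit false
set_option maxSynthPendingDepth 3

open Set Filter Topology MeasureTheory
open scoped ContDiff ENNReal

noncomputable section

namespace Pool.Agent.Helper2.DSH

open Helper62.LH Helper62.DSH

private lemma q2_eq {n j : ℕ} (t : Tn n j) : q2 t = (∑ I, t I ^ 2) / j.factorial := by
  unfold q2 ipt
  simp only [pow_two]

private lemma q2_nonneg {n j : ℕ} (t : Tn n j) : 0 ≤ q2 t := by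
  rw [q2_eq]
  exact div_nonneg (Finset.sum_nonneg fun _ _ => sq_nonneg _) (Nat.cast_nonneg _)

private lemma q2_le {n j : ℕ} (t : Tn n j) : q2 t ≤ ∑ I, t I ^ 2 := by
  rw [q2_eq]
  refine div_le_self (Finset.sum_nonneg fun _ _ => sq_nonneg _) ?_
  exact_mod_cast Nat.one_le_iff_ne_zero.2 j.factorial_ne_zero

private lemma q2_cont {n j : ℕ} {v : E n → Tn n j} (hv : Continuous v) :
    Continuous (fun x => q2 (v x)) := by
  have h : (fun x => q2 (v x)) = fun x => (∑ I, v x I ^ 2) / (j.factorial : ℝ) := by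
    funext x
    exact q2_eq _
  rw [h]
  exact (continuous_finsetSum _ fun I _ => ((continuous_apply I).comp hv).pow 2).div_const _

private lemma cont_cv {n j : ℕ} {g : E n → Bl n} {Γ : E n → Bm n} {F : Fin n → E n → E n}
    {G : E n → Fin n → Fin n → Fin n → ℝ} (hF : Frm g Γ F G) {u : E n → Tn n j}
    (hu : ContDiff ℝ ∞ u) (a : Fin n) : Continuous (fun x => cv F G u x a) := by
  unfold cv
  refine Continuous.sub ((hu.continuous_fderiv (by simp)).clm_apply (hF.smF a).continuous) ?_
  refine continuous_pi fun I => ?_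
  unfold rho
  refine continuous_finsetSum _ fun k _ => continuous_finsetSum _ fun l _ => ?_
  exact (hF.smG a (I k) l).continuous.mul ((continuous_apply _).comp hu.continuous)

private lemma cont_dF {n j : ℕ} {g : E n → Bl n} {Γ : E n → Bm n} {F : Fin n → E n → E n}
    {G : E n → Fin n → Fin n → Fin n → ℝ} (hF : Frm g Γ F G) {u : E n → Tn n j}
    (hu : ContDiff ℝ ∞ u) : Continuous (fun x => dF F G u x) := by
  refine continuous_pi fun J => ?_
  unfold dF wd
  refine continuous_finsetSum _ fun c _ => continuous_const.mul ?_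
  exact (continuous_apply _).comp (cont_cv hF hu (J c))

private lemma cont_dlF {n j : ℕ} {g : E n → Bl n} {Γ : E n → Bm n} {F : Fin n → E n → E n}
    {G : E n → Fin n → Fin n → Fin n → ℝ} (hF : Frm g Γ F G) {f : E n → ℝ} (hf : ContDiff ℝ ∞ f)
    {u : E n → Tn n (j + 1)} (hu : ContDiff ℝ ∞ u) : Continuous (fun x => dlF F G f u x) := by
  refine continuous_pi fun K => ?_
  unfold dlF
  have h : (fun x => (∑ a, (ct a (cv F G u x a) - fderiv ℝ f x (F a x) • ct a (u x))) K) =
      fun x => ∑ a, (cv F G u x a (Fin.cons a K) - fderiv ℝ f x (F a x) * u x (Fin.cons a K)) := by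
    funext x
    rw [Finset.sum_apply]
    rfl
  rw [h]
  refine continuous_finsetSum _ fun a _ => ?_
  refine Continuous.sub ((continuous_apply _).comp (cont_cv hF hu a)) ?_
  exact ((hf.continuous_fderiv (by simp)).clm_apply (hF.smF a).continuous).mul
    ((continuous_apply _).comp hu.continuous)

private lemma comp_int {n j : ℕ} {u η : E n → Tn n j} (hu : Continuous u) (hη : L2t η)
    {K : Set (E n)} (hK : IsCompact K) (I : Fin j → Fin n) :
    IntegrableOn (fun x => (u x I - η x I) ^ 2) K := by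
  have hc : Continuous (fun x => u x I) := (continuous_apply I).comp hu
  have h8 : MemLp (fun x => η x I) 2 (volume.restrict K) :=
    (memLp_two_iff_integrable_sq (hη I).1.restrict).2 ((hη I).2 K hK)
  have h9 : MemLp (fun x => u x I) 2 (volume.restrict K) :=
    (memLp_two_iff_integrable_sq hc.aestronglyMeasurable.restrict).2
      ((hc.pow 2).continuousOn.integrableOn_compact hK)
  exact (h9.sub h8).integrable_sq

private lemma q2_int {n j : ℕ} {u η : E n → Tn n j} (hu : Continuous u) (hη : L2t η)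
    {K : Set (E n)} (hK : IsCompact K) : IntegrableOn (fun x => q2 (u x - η x)) K := by
  have h : (fun x => q2 (u x - η x)) = fun x => (∑ I, (u x I - η x I) ^ 2) / (j.factorial : ℝ) := by
    funext x
    exact q2_eq _
  rw [h]
  exact (integrable_finsetSum _ fun I _ => comp_int hu hη hK I).div_const _

/-- changing between the weights: upper bound -/
private lemma wt_le {n : ℕ} {w h : E n → ℝ} {K : Set (E n)} (hK : IsCompact K) {C : ℝ}
    (hw : ∀ x, 0 < w x) (hC : ∀ x ∈ K, w x ≤ C) (h0 : ∀ x, 0 ≤ h x) (hi : IntegrableOn h K) :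
    ∫ x in K, h x * w x ≤ C * ∫ x in K, h x := by
  rw [← integral_const_mul]
  refine integral_mono_of_nonneg (Eventually.of_forall fun x => mul_nonneg (h0 x) (hw x).le)
    (hi.const_mul C) ?_
  refine (ae_restrict_iff' hK.measurableSet).2 (Eventually.of_forall fun x hx => ?_)
  change h x * w x ≤ C * h x
  rw [mul_comm C]
  exact mul_le_mul_of_nonneg_left (hC x hx) (h0 x)

theorem hFrj (hSma : StSma) (hMos : StMos) (hMoc : StMoc) (hDlv : StDlv) (_hNrm : TNrm)
    (hFrd : TFrd) (hFre : TFre) : TFrj := by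
  intro n m g Γ F G hg hΓ hF f hf P η hP hAl hL2 happ hco K hK κ hκ
  obtain ⟨ρ, hρ⟩ := (hSma n).1
  obtain ⟨hvs, hvp, -⟩ := hDlv n g Γ hg hΓ
  have hvc := hvs.continuous
  -- bounds of the density
  have hup : ∀ L : Set (E n), IsCompact L → ∃ C, 0 < C ∧ ∀ x ∈ L, vol g x ≤ C := by
    intro L hL
    obtain ⟨C, hC⟩ := hL.exists_bound_of_continuousOn hvc.continuousOn
    refine ⟨max C 1, lt_of_lt_of_le one_pos (le_max_right _ _), fun x hx => ?_⟩
    exact ((le_abs_self _).trans (hC x hx)).trans (le_max_left _ _)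
  have hlo : ∀ L : Set (E n), IsCompact L → ∃ C, 0 < C ∧ ∀ x ∈ L, 1 ≤ C * vol g x := by
    intro L hL
    obtain ⟨C, hC⟩ := hL.exists_bound_of_continuousOn
      (hvc.inv₀ fun x => (hvp x).ne').continuousOn
    refine ⟨max C 1, lt_of_lt_of_le one_pos (le_max_right _ _), fun x hx => ?_⟩
    have h1 : (vol g x)⁻¹ ≤ max C 1 := ((le_abs_self _).trans (hC x hx)).trans (le_max_left _ _)
    calc (1 : ℝ) = (vol g x)⁻¹ * vol g x := (inv_mul_cancel₀ (hvp x).ne').symm
      _ ≤ max C 1 * vol g x := mul_le_mul_of_nonneg_right h1 (hvp x).le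
  have happ' : ∀ L, IsCompact L → ∀ κ > 0, ∃ u : E n → Tn n (m + 1), ContDiff ℝ ∞ u ∧
      (∀ x, dF F G u x = P x) ∧ ∫ x in L, q2 (u x - η x) ≤ κ := by
    intro L hL κ' hκ'
    obtain ⟨C, hC0, hC⟩ := hlo L hL
    obtain ⟨u, hu, hd, hi⟩ := happ L hL (κ' / C) (div_pos hκ' hC0)
    refine ⟨u, hu, hd, ?_⟩
    have hint := q2_int hu.continuous hL2 hL
    have hint' : IntegrableOn (fun x => q2 (u x - η x) * vol g x) L :=
      hint.mul_continuousOn hvc.continuousOn hL
    have h1 : ∫ x in L, q2 (u x - η x) ≤ ∫ x in L, C * (q2 (u x - η x) * vol g x) := by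
      refine integral_mono_of_nonneg (Eventually.of_forall fun x => q2_nonneg _)
        (hint'.const_mul C) ?_
      refine (ae_restrict_iff' hL.measurableSet).2 (Eventually.of_forall fun x hx => ?_)
      change q2 (u x - η x) ≤ C * (q2 (u x - η x) * vol g x)
      have h2 := mul_le_mul_of_nonneg_left (hC x hx) (q2_nonneg (u x - η x))
      rw [mul_one] at h2
      refine h2.trans (le_of_eq ?_)
      ring
    refine h1.trans ?_
    rw [integral_const_mul]
    calc C * ∫ x in L, q2 (u x - η x) * vol g x ≤ C * (κ' / C) :=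
          mul_le_mul_of_nonneg_left hi hC0.le
      _ = κ' := mul_div_cancel₀ _ hC0.ne'
  obtain ⟨C, hC0, hC⟩ := hup K hK
  have t1 : Tendsto (fun ε : ℝ => C * ∫ x in K, q2 (dF F G (mt ρ ε η) x - P x)) (𝓝[>] 0) (𝓝 0) := by
    have h := (hFrd n (m + 1) g Γ F G hF ρ hρ η P hP hL2 happ' K hK).const_mul C
    rwa [mul_zero] at h
  have t2 : Tendsto (fun ε : ℝ => C * ∫ x in K, q2 (dlF F G f (mt ρ ε η) x)) (𝓝[>] 0) (𝓝 0) := by
    have h := (hFre n m g Γ F G hg hΓ hF ρ hρ f hf η hAl hL2 hco K hK).const_mul C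
    rwa [mul_zero] at h
  have t3 : Tendsto (fun ε : ℝ => C * ∑ I, ∫ x in K, (mo ρ ε (fun y => η y I) x - η x I) ^ 2)
      (𝓝[>] 0) (𝓝 0) := by
    have h := (tendsto_finsetSum Finset.univ fun I _ =>
      hMoc n ρ hρ (fun y => η y I) (hL2 I) K hK).const_mul C
    simpa using h
  have hpos : ∀ᶠ ε : ℝ in 𝓝[>] 0, 0 < ε := eventually_mem_nhdsWithin
  obtain ⟨ε, hε, h1, h2, h3⟩ := (hpos.and ((t1.eventually_le_const hκ).and
    ((t2.eventually_le_const hκ).and (t3.eventually_le_const hκ)))).exists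
  have hsm : ContDiff ℝ ∞ (mt ρ ε η) := by
    refine contDiff_pi.2 fun I => ?_
    exact (hMos n ρ hρ (fun y => η y I) (hL2 I) ε hε).1
  refine ⟨mt ρ ε η, hsm, ?_, ?_, ?_, ?_⟩
  · intro x I σ
    change mo ρ ε (fun y => η y (I ∘ σ)) x = ((Equiv.Perm.sign σ : ℤ) : ℝ) * mo ρ ε (fun y => η y I) x
    unfold mo
    rw [← integral_const_mul]
    refine integral_congr_ae (Eventually.of_forall fun y => ?_)
    change ρ y * η (x - ε • y) (I ∘ σ) = ((Equiv.Perm.sign σ : ℤ) : ℝ) * (ρ y * η (x - ε • y) I)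
    rw [hAl (x - ε • y) I σ]
    ring
  · refine (wt_le hK hvp hC (fun x => q2_nonneg _) (q2_int hsm.continuous hL2 hK)).trans ?_
    refine le_trans (mul_le_mul_of_nonneg_left ?_ hC0.le) h3
    change ∫ x in K, q2 (mt ρ ε η x - η x) ≤ ∑ I, ∫ x in K, (mt ρ ε η x I - η x I) ^ 2
    rw [← integral_finsetSum _ fun I _ => comp_int hsm.continuous hL2 hK I]
    refine integral_mono (q2_int hsm.continuous hL2 hK)
      (integrable_finsetSum _ fun I _ => comp_int hsm.continuous hL2 hK I) fun x => ?_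
    exact q2_le _
  · have hc : Continuous (fun x => q2 (dF F G (mt ρ ε η) x - P x)) :=
      q2_cont ((cont_dF hF hsm).sub hP)
    exact (wt_le hK hvp hC (fun x => q2_nonneg _) (hc.continuousOn.integrableOn_compact hK)).trans h1
  · have hc : Continuous (fun x => q2 (dlF F G f (mt ρ ε η) x)) := q2_cont (cont_dlF hF hf hsm)
    exact (wt_le hK hvp hC (fun x => q2_nonneg _) (hc.continuousOn.integrableOn_compact hK)).trans h2

end Pool.Agent.Helper2.DSH
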